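import Pool.Agent.H27.ZF.TA

/-!
# Board zf (MP_52e316_nt), row LTB: trivial bound for the inverse of a local factor
-/

set_option autoImplicit false

namespace Pool.Agent.H19.ZF

open Pool.Agent.H27.ZF

theorem geo_le {C0 : ℝ} (hC : 1 ≤ C0) (n : ℕ) :
    C0 * ∑ j ∈ Finset.range n, (2 * C0) ^ j ≤ (2 * C0) ^ n := by
  induction n with
  | zero => simp
  | succ n ih =>
    rw [Finset.sum_range_succ, mul_add, pow_succ]
    have h1 : 0 ≤ (2 * C0) ^ n := by positivity
    nlinarith

/-- the coefficients of the inverse -/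
theorem q_le {m : ℕ} {h q : ℕ → ℂ} {C0 b : ℝ} (hI : Inv m h q) (hC : 1 ≤ C0) (hb : 1 ≤ b)
    (hh : ∀ k, k ≤ m → ‖h k‖ ≤ C0 * b ^ k) : ∀ n, n ≤ m → ‖q n‖ ≤ (2 * C0) ^ n * b ^ n := by
  intro n
  induction n using Nat.strong_induction_on with
  | _ n ih =>
    intro hn
    rcases Nat.eq_zero_or_pos n with rfl | hn0
    · rw [hI.q0]
      simp
    · have h1 := hI.conv n hn0
      rw [Finset.sum_range_succ, Nat.sub_self, hI.h0, mul_one] at h1
      have h2 : q n = -∑ j ∈ Finset.range n, q j * h (n - j) := by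
        rw [add_comm] at h1
        exact eq_neg_of_add_eq_zero_left h1
      rw [h2, norm_neg]
      refine (norm_sum_le _ _).trans ?_
      have h3 : ∀ j ∈ Finset.range n, ‖q j * h (n - j)‖ ≤ C0 * b ^ n * (2 * C0) ^ j := by
        intro j hj
        have hj1 : j < n := Finset.mem_range.1 hj
        rw [norm_mul]
        calc ‖q j‖ * ‖h (n - j)‖ ≤ ((2 * C0) ^ j * b ^ j) * (C0 * b ^ (n - j)) :=
              mul_le_mul (ih j hj1 (by omega)) (hh _ (by omega)) (norm_nonneg _) (by positivity)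
          _ = C0 * (b ^ j * b ^ (n - j)) * (2 * C0) ^ j := by ring
          _ = _ := by
            rw [← pow_add]
            congr 3
            omega
      refine (Finset.sum_le_sum h3).trans ?_
      rw [← Finset.mul_sum]
      calc C0 * b ^ n * ∑ j ∈ Finset.range n, (2 * C0) ^ j =
            (C0 * ∑ j ∈ Finset.range n, (2 * C0) ^ j) * b ^ n := by ring
        _ ≤ _ := mul_le_mul_of_nonneg_right (geo_le hC n) (by positivity)

theorem pf_LTB : T_LTB := by
  intro m C0 hC
  have h1 : (1 : ℝ) ≤ (2 * C0) ^ m := one_le_pow₀ (by linarith)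
  refine ⟨((m : ℝ) + 1) * (2 * C0) ^ m, ?_, fun h q b hI hb hh x hx => ?_⟩
  · have h2 : (0 : ℝ) ≤ m := by positivity
    nlinarith
  · unfold qv
    refine (norm_sum_le _ _).trans ?_
    have h3 : ∀ j ∈ Finset.range (m + 1), ‖q j * x ^ j‖ ≤ (2 * C0) ^ m * b ^ m := by
      intro j hj
      have hj1 : j ≤ m := by
        have := Finset.mem_range.1 hj
        omega
      rw [norm_mul, norm_pow]
      calc ‖q j‖ * ‖x‖ ^ j ≤ ‖q j‖ * 1 :=
            mul_le_mul_of_nonneg_left (pow_le_one₀ (norm_nonneg _) hx) (norm_nonneg _)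
        _ = ‖q j‖ := mul_one _
        _ ≤ (2 * C0) ^ j * b ^ j := q_le hI hC hb hh j hj1
        _ ≤ _ := mul_le_mul (pow_le_pow_right₀ (by linarith) hj1) (pow_le_pow_right₀ hb hj1)
          (by positivity) (by positivity)
    refine (Finset.sum_le_sum h3).trans ?_
    rw [Finset.sum_const, Finset.card_range, nsmul_eq_mul]
    push_cast
    exact le_of_eq (by ring)

end Pool.Agent.H19.ZF
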